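import Pool.Agent.H67.AT.Targets

/-!
# Row STG: a stage with an abstract potential
-/

set_option autoImplicit false

open Finset PowerSeries Pool.Agent.H67.AT

namespace Pool.Agent.H21.HAT

theorem ld_comm {Y : Type} [Fintype Y] (a b : Y → ℝ) : ld a b = ld b a := by
  unfold ld
  exact Finset.sum_congr rfl fun y _ => mul_comm _ _

theorem ld_nonneg {Y : Type} [Fintype Y] {a b : Y → ℝ} (ha : ∀ y, 0 ≤ a y) (hb : ∀ y, 0 ≤ b y) :
    0 ≤ ld a b := Finset.sum_nonneg fun y _ => mul_nonneg (ha y) (hb y)

theorem ld_rt {R Y : Type} [Fintype R] [Fintype Y] (S : Stage R Y) (p : ℕ) (v : Y → ℝ) :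
    ld (S.rt p) v = ∑ r', S.μ p r' * ∑ i, ld (S.ρC r' i) v := by
  unfold ld Stage.rt
  have h1 : ∀ y, (∑ r, S.μ p r * ∑ i, S.ρC r i y) * v y =
      ∑ r, ∑ i, S.μ p r * (S.ρC r i y * v y) := by
    intro y
    rw [Finset.sum_mul]
    refine Finset.sum_congr rfl fun r _ => ?_
    rw [Finset.mul_sum, Finset.sum_mul]
    refine Finset.sum_congr rfl fun i _ => ?_
    ring
  rw [Finset.sum_congr rfl fun y _ => h1 y, Finset.sum_comm]
  refine Finset.sum_congr rfl fun r _ => ?_
  rw [Finset.sum_comm, Finset.mul_sum]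
  refine Finset.sum_congr rfl fun i _ => ?_
  rw [Finset.mul_sum]

theorem pf_STG (hEXC : T_EXC) (hEVT : T_EVT) : T_STG := by
  classical
  intro R Y _ _ S β g η ζ m Ψ r₀ hβ hg hη hm hζ hV hSM hLB hΨ
  have hm0 : (0 : ℝ) ≤ 16 * m := by positivity
  have he1 : 0 ≤ eta1 m ζ β g η := by
    unfold eta1
    have : 0 ≤ β * g := mul_nonneg hβ hg
    have : 0 ≤ 16 * (m : ℝ) * (η + β * g) := mul_nonneg hm0 (by linarith)
    linarith
  have he2 : 0 ≤ eta2 m ζ β g η := by
    unfold eta2
    rw [eta1]
    have h1 : 0 ≤ β * g := mul_nonneg hβ hg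
    have : 0 ≤ 16 * (m : ℝ) * (eta1 m ζ β g η + β * g) := mul_nonneg hm0 (by linarith)
    linarith
  have main : ∀ p ≤ S.N, ∃ r : ℕ → R, S.Adm p r ∧
      (∀ j < p, ∀ j' < p, ∀ i i', (j, i) ≠ (j', i') →
        ld (S.ρC (r j) i) (S.ρC (r j') i') ≤ eta2 m ζ β g η) ∧
      (∀ j < p, ∀ j', p ≤ j' → j' < S.N → ∀ i, ld (S.ρC (r j) i) (S.ρB j') ≤ eta1 m ζ β g η) ∧
      Ψ p r ≤ Ψ 0 r₀ := by
    intro p
    induction p with
    | zero =>
      intro _
      exact ⟨r₀, fun j hj => absurd hj (Nat.not_lt_zero j), fun j hj => absurd hj (Nat.not_lt_zero j),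
        fun j hj => absurd hj (Nat.not_lt_zero j), le_rfl⟩
    | succ p ih =>
      intro hp
      have hpN : p < S.N := hp
      obtain ⟨r, hA, hB, hC, hD⟩ := ih hpN.le
      have vnn : ∀ o ∈ S.obj p, ∀ y, 0 ≤ S.vec r o y := by
        intro o ho y
        rcases o with j' | ⟨j, i⟩
        · have hj' := (Finset.mem_Ioo.1 (Finset.inl_mem_disjSum.1 ho)).2
          exact hV.nnB j' hj' y
        · exact hV.nnC _ _ _
      have vg : ∀ o ∈ S.obj p, ∑ y, S.vec r o y ≤ g := by
        intro o ho
        rcases o with j' | ⟨j, i⟩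
        · have hj' := (Finset.mem_Ioo.1 (Finset.inl_mem_disjSum.1 ho)).2
          exact hV.gB j' hj'
        · have hj := Finset.mem_range.1 (Finset.mem_product.1 (Finset.inr_mem_disjSum.1 ho)).1
          exact hV.gC _ _ (hA j hj).1
      set c : (ℕ ⊕ ℕ × Fin S.K) → ℝ := fun o => ld (S.rt p) (S.vec r o) with hc
      set f : R → (ℕ ⊕ ℕ × Fin S.K) → ℝ := fun r' o => ∑ i, ld (S.ρC r' i) (S.vec r o) with hf
      have cf : ∀ o, c o = ∑ r', S.μ p r' * f r' o := fun o => ld_rt S p _
      have fnn : ∀ r', ∀ o ∈ S.obj p, 0 ≤ f r' o := fun r' o ho =>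
        Finset.sum_nonneg fun i _ => ld_nonneg (hV.nnC r' i) (vnn o ho)
      have cnn : ∀ o ∈ S.obj p, 0 ≤ c o := by
        intro o ho
        rw [cf]
        exact Finset.sum_nonneg fun r' _ => mul_nonneg (hV.nn p hpN r') (fnn r' o ho)
      have hlb := hLB p hpN r hA
      obtain ⟨Sx, hSx, hcard, hsum⟩ := hEXC _ (S.obj p) c m ζ cnn hm hζ
        (lt_of_le_of_lt (hlb.trans hD) hΨ)
      have hevt := hEVT R _ (S.μ p) S.acc (S.obj p) Sx f m ζ (hV.nn p hpN) (hV.one p hpN)
        (hV.fail p hpN) fnn hm hζ hSx hcard (by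
          rw [Finset.sum_congr rfl fun o _ => (cf o).symm]
          exact hsum)
      set Ev : Finset R := univ.filter fun r' => S.acc r' ∧
        ∀ o ∈ S.obj p, f r' o ≤ 16 * m * ∑ r'', S.μ p r'' * f r'' o + 16 * ζ with hEv
      have hacc : ∀ r' ∈ Ev, S.acc r' := fun r' hr' => (Finset.mem_filter.1 hr').2.1
      have hsm := hSM p hpN r hA Ev hacc hevt
      have hex : ∃ r' ∈ Ev, 0 < S.μ p r' ∧ Ψ (p + 1) (Function.update r p r') ≤ Ψ p r := by
        by_contra hcon
        push Not at hcon
        have hpos : ∃ r' ∈ Ev, 0 < S.μ p r' := by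
          by_contra h0
          push Not at h0
          have : ∑ r' ∈ Ev, S.μ p r' ≤ 0 := Finset.sum_nonpos h0
          linarith
        obtain ⟨r1, hr1, hr1p⟩ := hpos
        have : ∑ r' ∈ Ev, S.μ p r' * Ψ p r <
            ∑ r' ∈ Ev, S.μ p r' * Ψ (p + 1) (Function.update r p r') := by
          refine Finset.sum_lt_sum (fun r' hr' => ?_) ⟨r1, hr1, ?_⟩
          · rcases (hV.nn p hpN r').eq_or_lt with h0 | h0
            · rw [← h0, zero_mul, zero_mul]
            · exact mul_le_mul_of_nonneg_left (hcon r' hr' h0).le h0.le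
          · exact mul_lt_mul_of_pos_left (hcon r1 hr1 hr1p) hr1p
        rw [← Finset.sum_mul] at this
        linarith
      obtain ⟨r', hr', hμ', hΨ'⟩ := hex
      have hfb : ∀ o ∈ S.obj p, ∀ i, ld (S.ρC r' i) (S.vec r o) ≤
          16 * m * (ld (S.ρB p) (S.vec r o) + β * g) + 16 * ζ := by
        intro o ho i
        have h1 : ld (S.ρC r' i) (S.vec r o) ≤ f r' o :=
          Finset.single_le_sum (f := fun i => ld (S.ρC r' i) (S.vec r o))
            (fun i _ => ld_nonneg (hV.nnC r' i) (vnn o ho)) (Finset.mem_univ i)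
        have h2 := (Finset.mem_filter.1 hr').2.2 o ho
        rw [← cf] at h2
        have h3 : c o ≤ ld (S.ρB p) (S.vec r o) + β * g := by
          have h4 : c o ≤ ∑ y, (S.ρB p y + β) * S.vec r o y :=
            Finset.sum_le_sum fun y _ => mul_le_mul_of_nonneg_right (hV.rt_le p hpN y) (vnn o ho y)
          have h5 : ∑ y, (S.ρB p y + β) * S.vec r o y = ld (S.ρB p) (S.vec r o) +
              β * ∑ y, S.vec r o y := by
            unfold ld
            rw [Finset.mul_sum, ← Finset.sum_add_distrib]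
            exact Finset.sum_congr rfl fun y _ => add_mul _ _ _
          have h6 := mul_le_mul_of_nonneg_left (vg o ho) hβ
          linarith
        have h7 := mul_le_mul_of_nonneg_left h3 hm0
        linarith
      have hup : Function.update r p r' p = r' := Function.update_self p r' r
      have hul : ∀ j < p, Function.update r p r' j = r j := fun j hj =>
        Function.update_of_ne (ne_of_lt hj) r' r
      have hnew : ∀ j < p, ∀ i i', ld (S.ρC r' i) (S.ρC (r j) i') ≤ eta2 m ζ β g η := by
        intro j hj i i'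
        have ho : (Sum.inr (j, i') : ℕ ⊕ ℕ × Fin S.K) ∈ S.obj p := by
          unfold Stage.obj
          rw [Finset.inr_mem_disjSum, Finset.mem_product]
          exact ⟨Finset.mem_range.2 hj, Finset.mem_univ _⟩
        have h1 := hfb _ ho i
        have h2 : S.vec r (Sum.inr (j, i')) = S.ρC (r j) i' := rfl
        rw [h2] at h1
        have h3 := hC j hj p le_rfl hpN i'
        rw [ld_comm] at h3
        refine h1.trans ?_
        unfold eta2
        rw [eta1]
        have h4 : 16 * (m : ℝ) * (ld (S.ρB p) (S.ρC (r j) i') + β * g) ≤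
            16 * m * (eta1 m ζ β g η + β * g) := mul_le_mul_of_nonneg_left (by linarith) hm0
        linarith
      refine ⟨Function.update r p r', ?_, ?_, ?_, hΨ'.trans hD⟩
      · intro j hj
        rcases Nat.lt_succ_iff_lt_or_eq.1 hj with h | h
        · rw [hul j h]
          exact hA j h
        · rw [h, hup]
          exact ⟨hacc r' hr', hμ'⟩
      · intro j hj j' hj' i i' hne
        rcases Nat.lt_succ_iff_lt_or_eq.1 hj with h | h
        · rcases Nat.lt_succ_iff_lt_or_eq.1 hj' with h' | h'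
          · rw [hul j h, hul j' h']
            exact hB j h j' h' i i' hne
          · rw [hul j h, h', hup, ld_comm]
            exact hnew j h i' i
        · rcases Nat.lt_succ_iff_lt_or_eq.1 hj' with h' | h'
          · rw [hul j' h', h, hup]
            exact hnew j' h' i i'
          · subst h
            subst h'
            rw [hup, hV.sib r' (hacc r' hr') i i' fun h0 => hne (by rw [h0])]
            exact he2
      · intro j hj j' hpj' hj'N i
        rcases Nat.lt_succ_iff_lt_or_eq.1 hj with h | h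
        · rw [hul j h]
          exact hC j h j' (by omega) hj'N i
        · rw [h, hup]
          have ho : (Sum.inl j' : ℕ ⊕ ℕ × Fin S.K) ∈ S.obj p := by
            unfold Stage.obj
            rw [Finset.inl_mem_disjSum, Finset.mem_Ioo]
            exact ⟨by omega, hj'N⟩
          have h1 := hfb _ ho i
          have h2 : S.vec r (Sum.inl j') = S.ρB j' := rfl
          rw [h2] at h1
          refine h1.trans ?_
          rw [eta1]
          have h3 := hV.pair p hpN j' hj'N (by omega)
          have h4 : 16 * (m : ℝ) * (ld (S.ρB p) (S.ρB j') + β * g) ≤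
            16 * m * (η + β * g) := mul_le_mul_of_nonneg_left (by linarith) hm0
          linarith
  obtain ⟨r, hA, hB, -, hD⟩ := main S.N le_rfl
  exact ⟨r, hA, hB, hD⟩

end Pool.Agent.H21.HAT
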